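import Mathlib
import Pool.Agent.LibSemiorder.Asymp

set_option autoImplicit false

/-!
Every uncapacitated flow-based extension of the semiorder polytope on `[n]` has at least
`(log n) ^ (n / 100)` arcs, for all large `n`.

Outline. The elements are divided into rulers, which are placed at equidistant points, and
`m` labels, which are placed at `m = K w` positions between the rulers according to a permutation
`σ`; the unit length is `w` positions. For each `σ` choose a walk from the source to the sink
whose image is the incidence vector `χ σ` of the semiorder. If the walks of `σ` and `τ` share a
vertex, they can be crossed, and it follows that there is a vector `λ` (depending on the vertex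
only) such that `χ σ + λ (χ τ - χ σ)` (coordinatewise product) lies in the polytope for all `σ, τ`
through the vertex. The axioms of semiorders, as valid inequalities, show that `λ` has a single
value `λ(y)` on all non-constant coordinates between a label `y` and the rulers, and that
`λ(y) = λ(y')` whenever, in some `σ` through the vertex, `y` and `y'` cover each other (shifted by
the unit). If more than a small number of permutations use an arc, this forces `λ(y)` to be
constant for more than half of the labels. Hence, if all arcs of a walk are used by many
permutations, the constant cannot change along the walk; but it is `0` at the source and `1` at
the sink.
-/

namespace Pool.Agent.Results.MP_59d646_lc.SuperexponentialFlow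

open Filter Pool.Agent.LibSemiorder

theorem result : ∀ᶠ n : ℕ in atTop, ∀ (D : Network) (k : ℝ),
    IsFlowExtension D k (semiorderPolytope n) →
      Real.log n ^ ((n : ℝ) / 100) ≤ (Fintype.card D.A : ℝ) :=
  superexponential

end Pool.Agent.Results.MP_59d646_lc.SuperexponentialFlow
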